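import Pool.Agent.helper47.TFQ.Spec

/-!
Row ta:QG1 (project tfq, MP_3703a7_ag): Jacobi sums over a hyperplane and Gauss sums, any finite field.
-/

set_option autoImplicit false

namespace Pool.Agent.TFQ

open Polynomial Pool.Agent.GJ Pool.Agent.TK
open Pool.Agent.FJ (VT Om chiO IsFrobO rf rs)
open Pool.Agent.TD (zK)

noncomputable section

/-- the sum over the hyperplane `∑ w_j = s` -/
def QG1_S {F : Type} [Field F] [Fintype F] [DecidableEq F] (χ : MulChar F Om) {n : ℕ} (k : Fin (n + 1) → ℕ)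
    (s : F) : Om :=
  ∑ w : Fin (n + 1) → F, if ∑ j, w j = s then ∏ j, χ (w j) ^ k j else 0

theorem QG1_cJ {F : Type} [Field F] [Fintype F] [DecidableEq F] (χ : MulChar F Om) {n : ℕ} (μ : Fin (n + 1) → ℕ)
    (lam : Fin (n + 1) → F) (m : ℕ) (hl : ∀ j, lam j ≠ 0) :
    cJQ χ μ lam m * (∏ j, χ (lam j) ^ (m * μ j)) = QG1_S χ (fun j => m * μ j) 1 := by
  unfold cJQ QG1_S
  rw [Finset.sum_mul]
  refine Fintype.sum_equiv (Equiv.piCongrRight (fun j => Equiv.mulLeft₀ (lam j) (hl j))) _ _ ?_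
  intro w
  have h1 : ∀ j, (Equiv.piCongrRight (fun j => Equiv.mulLeft₀ (lam j) (hl j))) w j = lam j * w j :=
    fun j => rfl
  simp only [h1]
  by_cases h : ∑ j, lam j * w j = 1
  · rw [if_pos h, if_pos h, ← Finset.prod_mul_distrib]
    refine Finset.prod_congr rfl ?_
    intro j _
    rw [map_mul, mul_pow, mul_comm]
  · rw [if_neg h, if_neg h, zero_mul]

theorem QG1_scale {F : Type} [Field F] [Fintype F] [DecidableEq F] (χ : MulChar F Om) {n : ℕ} (k : Fin (n + 1) → ℕ)
    (c s : F) (hc : c ≠ 0) :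
    QG1_S χ k (c * s) = χ c ^ (∑ j, k j) * QG1_S χ k s := by
  unfold QG1_S
  rw [Finset.mul_sum]
  symm
  refine Fintype.sum_equiv (Equiv.piCongrRight (fun _ => Equiv.mulLeft₀ c hc)) _ _ ?_
  intro w
  have h1 : ∀ j, (Equiv.piCongrRight (fun _ : Fin (n + 1) => Equiv.mulLeft₀ c hc)) w j = c * w j :=
    fun j => rfl
  simp only [h1]
  rw [← Finset.mul_sum]
  by_cases h : ∑ j, w j = s
  · rw [if_pos h, if_pos (by rw [h]), ← Finset.prod_pow_eq_pow_sum, ← Finset.prod_mul_distrib]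
    refine Finset.prod_congr rfl ?_
    intro j _
    rw [map_mul, mul_pow]
  · rw [if_neg h, if_neg (fun h' => h (mul_left_cancel₀ hc h')), mul_zero]

theorem QG1_zero {F : Type} [Field F] [Fintype F] [DecidableEq F] (χ : MulChar F Om) {n : ℕ} (k : Fin (n + 1) → ℕ)
    (hk : χ ^ (∑ j, k j) ≠ 1) : QG1_S χ k 0 = 0 := by
  obtain ⟨c, hc⟩ := MulChar.ne_one_iff.1 hk
  have h1 := QG1_scale χ k (c : F) 0 c.ne_zero
  rw [mul_zero] at h1
  rw [MulChar.pow_apply_coe] at hc
  have h2 : (1 - χ (c : F) ^ (∑ j, k j)) * QG1_S χ k 0 = 0 := by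
    rw [sub_mul, one_mul, ← h1, sub_self]
  rcases mul_eq_zero.1 h2 with h | h
  · exact absurd (sub_eq_zero.1 h).symm hc
  · exact h

theorem QG1_psi {F : Type} [Field F] [Fintype F] [DecidableEq F] (ψ : AddChar F Om) {ι : Type*} (s : Finset ι)
    (w : ι → F) : ψ (∑ j ∈ s, w j) = ∏ j ∈ s, ψ (w j) := by
  classical
  induction s using Finset.induction_on with
  | empty => simp
  | insert a s ha ih =>
    rw [Finset.sum_insert ha, Finset.prod_insert ha, AddChar.map_add_eq_mul, ih]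

theorem QG1 : QG1_stmt := by
  intro F _ _ _ χ ψ n μ lam m hm hμ hχ hl
  have hpos : ∀ j, m * μ j ≠ 0 := fun j => (Nat.mul_pos hm (hμ j)).ne'
  rw [QG1_cJ χ μ lam m hl]
  have hsum : ∑ j, m * μ j = m * ∑ j, μ j := (Finset.mul_sum _ _ _).symm
  have hsum0 : m * ∑ j, μ j ≠ 0 := by
    rw [← hsum]
    have : 0 < ∑ j, m * μ j := Finset.sum_pos (fun j _ => Nat.pos_of_ne_zero (hpos j))
      ⟨0, Finset.mem_univ _⟩
    exact this.ne'
  -- every layer
  have hlay : ∀ s : F, QG1_S χ (fun j => m * μ j) s =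
      (χ ^ (m * ∑ j, μ j)) s * QG1_S χ (fun j => m * μ j) 1 := by
    intro s
    by_cases hs : s = 0
    · subst hs
      rw [QG1_zero χ _ (by rw [hsum]; exact hχ), MulChar.map_zero, zero_mul]
    · have := QG1_scale χ (fun j => m * μ j) s 1 hs
      rw [mul_one, hsum] at this
      rw [this, MulChar.pow_apply' _ hsum0]
  -- expansion of the product of Gauss sums
  have hprod : ∏ j, gaussSum (χ ^ (m * μ j)) ψ =
      ∑ w : Fin (n + 1) → F, (∏ j, χ (w j) ^ (m * μ j)) * ψ (∑ j, w j) := by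
    unfold gaussSum
    rw [Finset.prod_univ_sum, Fintype.piFinset_univ]
    refine Finset.sum_congr rfl ?_
    intro w _
    rw [Finset.prod_mul_distrib, QG1_psi]
    congr 1
    refine Finset.prod_congr rfl ?_
    intro j _
    rw [MulChar.pow_apply' _ (hpos j)]
  rw [hprod]
  have hsplit : ∑ w : Fin (n + 1) → F, (∏ j, χ (w j) ^ (m * μ j)) * ψ (∑ j, w j) =
      ∑ s : F, QG1_S χ (fun j => m * μ j) s * ψ s := by
    unfold QG1_S
    simp only [Finset.sum_mul]
    rw [Finset.sum_comm]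
    refine Finset.sum_congr rfl ?_
    intro w _
    rw [Finset.sum_eq_single (∑ j, w j)]
    · rw [if_pos rfl]
    · intro s _ hs
      rw [if_neg (fun h => hs h.symm), zero_mul]
    · intro h
      exact absurd (Finset.mem_univ _) h
  rw [hsplit]
  unfold gaussSum
  rw [Finset.mul_sum]
  refine Finset.sum_congr rfl ?_
  intro s _
  rw [hlay s]
  ring

end

end Pool.Agent.TFQ
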